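import Pool.Agent.U352.SB.Main

/-!
# The algebraic core of a closed affine manifold

Chern's conjecture says that closed affine manifolds have Euler characteristic zero; by the theorem
of Poincare and Hopf it is enough to find a vector field without zeros. Let `M = Γ \ X` be any
closed affine manifold of positive dimension (no condition on the developing map `dev : X → E` or
on the holonomy). We find a closed `Γ`-invariant subset `C` of `E`, the graph of a polynomial map
defined on a vector space of dimension `k`, such that for all subgroups `K` of finite index in `Γ`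

1. every `K`-invariant semialgebraic subset of `E` contains `C` or is disjoint from `C`; in other
   words the Zariski closure of the holonomy of each finite covering of `M` acts transitively on
   `C`;
2. if the closed submanifold `K \ dev⁻¹(C)` of `K \ X` has a tangent vector field without zeros, for
   instance if `C` does not meet the developing image, then `K \ X` has a vector field without
   zeros.

Moreover `M` has a vector field without zeros if `k = 0`, and equivariant polynomial maps from `E`
to irreducible representations of `Γ` are constant on `C`.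

So Chern's conjecture is reduced to the closed manifolds `N = Γ \ dev⁻¹(C)` that are locally
modelled on `ℝ ^ k` with polynomial coordinate changes and on which the Zariski closure of the
holonomy acts transitively. The tangent bundle of `N` is a successive extension of flat bundles, so
that the Euler characteristic of `N` is zero for `k ≤ 3` by Milnor's theorem. Hence if a closed
affine manifold of dimension four has a non-zero Euler characteristic then `C = E`: the holonomy
group and its subgroups of finite index leave no proper nonempty semialgebraic subset of the affine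
space invariant.

Idea: the set `C` is the orbit of a fixed point of a Levi subgroup of the Zariski closure of the
holonomy under the unipotent radical. It is constructed by induction, with equivariant maps from
`X × [0, 1]` to `C` which extend given ones and are close to given maps to `E` near the points where
the latter have values in `C`. A tangent field gives a map from `dev⁻¹(C)` to `C` without
coincidences with `dev`; it extends to an equivariant map `r` from `X` to `C` without coincidences
with `dev`, and `r - dev` is the vector field.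
-/

set_option autoImplicit false

open Set Filter Topology

namespace Pool.Agent.Results.MP_1fa9a4_gt.AlgebraicCore

/-- A closed affine manifold `Γ \ X` modelled on the vector space `E`: the group `Γ` acts on the
space `X` properly discontinuously and with compact quotient, and the developing map `dev` is a
local homeomorphism to `E` that is equivariant with respect to the affine holonomy `hol`. The
action need not be free (so orbifolds are allowed). -/
structure ClosedAffine (X Γ E : Type) [TopologicalSpace X] [Group Γ] [MulAction Γ X]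
    [NormedAddCommGroup E] [NormedSpace ℝ E] (dev : X → E) (hol : Γ →* (E ≃ᵃ[ℝ] E)) : Prop where
  /-- the developing map is a local homeomorphism -/
  loc : IsLocalHomeomorph dev
  /-- the group acts by homeomorphisms -/
  cont : ∀ γ : Γ, Continuous fun x : X => γ • x
  /-- the developing map is equivariant -/
  equi : ∀ (γ : Γ) (x : X), dev (γ • x) = hol γ (dev x)
  /-- the action is properly discontinuous -/
  pd : ∀ K : Set X, IsCompact K → {γ : Γ | ∃ x ∈ K, γ • x ∈ K}.Finite
  /-- the quotient is compact -/
  cc : ∃ K : Set X, IsCompact K ∧ ∀ x : X, ∃ γ : Γ, ∃ k ∈ K, γ • k = x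

/-- The covering `K \ X` of `Γ \ X` has a continuous vector field without zeros. A vector field on
`X` is given by a map `Z` to `E` (in the charts given by the developing map), and it is a vector
field on `K \ X` if it is invariant under `K`. -/
def HasField (X : Type) {Γ E : Type} [TopologicalSpace X] [Group Γ] [MulAction Γ X]
    [NormedAddCommGroup E] [NormedSpace ℝ E] (hol : Γ →* (E ≃ᵃ[ℝ] E)) (K : Subgroup Γ) : Prop :=
  ∃ Z : X → E, Continuous Z ∧ (∀ x, Z x ≠ 0) ∧
    ∀ γ ∈ K, ∀ x : X, Z (γ • x) = (hol γ).linear (Z x)

/-- The submanifold `K \ dev⁻¹(C)`, where `C` is the image of the map `φ` with linear left inverse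
`ψ`, has a continuous tangent vector field without zeros. The tangent space of `C` at `φ y` is the
image of the derivative of `φ` at `y`, and `y = ψ (φ y)`. -/
def HasTangentField {X Γ E P : Type} [TopologicalSpace X] [Group Γ] [MulAction Γ X]
    [NormedAddCommGroup E] [NormedSpace ℝ E] [NormedAddCommGroup P] [NormedSpace ℝ P]
    (dev : X → E) (hol : Γ →* (E ≃ᵃ[ℝ] E)) (K : Subgroup Γ) (φ : P → E) (ψ : E →ₗ[ℝ] P) : Prop :=
  ∃ Y : X → E, ContinuousOn Y {x | dev x ∈ range φ} ∧
    (∀ x, dev x ∈ range φ → Y x ≠ 0 ∧ ∃ v, fderiv ℝ φ (ψ (dev x)) v = Y x) ∧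
    ∀ γ ∈ K, ∀ x : X, dev x ∈ range φ → Y (γ • x) = (hol γ).linear (Y x)

section
variable {V W : Type} [AddCommGroup V] [Module ℝ V] [AddCommGroup W] [Module ℝ W]

/-- the function is a polynomial in linear forms -/
def IsPolynomial (f : V → ℝ) : Prop :=
  ∃ p : MvPolynomial (V →ₗ[ℝ] ℝ) ℝ, ∀ x, f x = MvPolynomial.eval (fun l => l x) p

/-- the coordinates of the map are polynomials -/
def IsPolynomialMap (φ : V → W) : Prop := ∀ l : W →ₗ[ℝ] ℝ, IsPolynomial fun y => l (φ y)

/-- The set is semialgebraic: whether a point belongs to it depends only on the signs of finitely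
many polynomials at this point. -/
def Semialgebraic (A : Set V) : Prop :=
  ∃ (k : ℕ) (f : Fin k → V → ℝ), (∀ i, IsPolynomial (f i)) ∧
    ∀ x y, (∀ i, SignType.sign (f i x) = SignType.sign (f i y)) → (x ∈ A ↔ y ∈ A)

/-- the set is invariant under the holonomy of the elements of `K` -/
def Invariant {Γ : Type} [Group Γ] (hol : Γ →* (V ≃ᵃ[ℝ] V)) (K : Subgroup Γ) (A : Set V) : Prop :=
  ∀ γ ∈ K, ∀ p ∈ A, hol γ p ∈ A

open Pool.Agent.U352.SA

theorem IsPolynomial.mem {f : V → ℝ} (hf : IsPolynomial f) : ∃ n, f ∈ affF V ^ n := by
  obtain ⟨p, hp⟩ := hf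
  obtain rfl : f = fun x => MvPolynomial.eval (fun l : V →ₗ[ℝ] ℝ => l x) p := funext hp
  clear hp
  induction p using MvPolynomial.induction_on with
  | C c =>
    refine ⟨0, ?_⟩
    simp only [MvPolynomial.eval_C]
    exact const_mem 0 c
  | add p q hp hq =>
    obtain ⟨n, hn⟩ := hp
    obtain ⟨m, hm⟩ := hq
    refine ⟨max n m, ?_⟩
    simp only [map_add]
    exact (affF V ^ (max n m)).add_mem (pow_mono (le_max_left n m) hn)
      (pow_mono (le_max_right n m) hm)
  | mul_X p l hp =>
    obtain ⟨n, hn⟩ := hp
    refine ⟨n + 1, ?_⟩
    simp only [map_mul, MvPolynomial.eval_X]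
    rw [pow_succ]
    exact Submodule.mul_mem_mul hn (lin_mem_affF l)

theorem IsPolynomial.of_mem {f : V → ℝ} {n : ℕ} (hf : f ∈ affF V ^ n) : IsPolynomial f := by
  let A : Submodule ℝ (V → ℝ) :=
    { carrier := {f | IsPolynomial f}
      add_mem' := by
        rintro f g ⟨p, hp⟩ ⟨q, hq⟩
        exact ⟨p + q, fun x => by rw [map_add, Pi.add_apply, hp, hq]⟩
      zero_mem' := ⟨0, fun x => by rw [map_zero]; rfl⟩
      smul_mem' := by
        rintro c f ⟨p, hp⟩
        exact ⟨MvPolynomial.C c * p, fun x => by
          rw [map_mul, MvPolynomial.eval_C, Pi.smul_apply, smul_eq_mul, hp]⟩ }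
  have h1 : affF V ≤ A := by
    rintro _ ⟨l, c, rfl⟩
    exact ⟨MvPolynomial.X l + MvPolynomial.C c, fun x => by
      rw [map_add, MvPolynomial.eval_X, MvPolynomial.eval_C]⟩
  have h2 : ∀ n, affF V ^ n ≤ A := by
    intro n
    induction n with
    | zero =>
      rw [pow_zero, Submodule.one_le]
      exact ⟨1, fun x => by rw [map_one]; rfl⟩
    | succ n ih =>
      rw [pow_succ, Submodule.mul_le]
      intro f hf g hg
      obtain ⟨p, hp⟩ := ih hf
      obtain ⟨q, hq⟩ := h1 hg
      exact ⟨p * q, fun x => by rw [map_mul, Pi.mul_apply, hp, hq]⟩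
  exact h2 n hf

theorem IsPolynomialMap.isPol [FiniteDimensional ℝ W] {φ : V → W} (hφ : IsPolynomialMap φ) :
    IsPol φ := by
  classical
  let b := Module.finBasis ℝ W
  choose n hn using fun i => (hφ (b.coord i)).mem
  refine ⟨∑ i, n i, fun l => ?_⟩
  have h1 : (fun x => l (φ x)) = ∑ i, l (b i) • fun x => b.coord i (φ x) := by
    funext x
    rw [Finset.sum_apply]
    conv_lhs => rw [← b.sum_repr (φ x), map_sum]
    refine Finset.sum_congr rfl fun i _ => ?_
    rw [map_smul, Pi.smul_apply, smul_eq_mul, smul_eq_mul, mul_comm]
    rfl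
  rw [h1]
  refine Submodule.sum_mem _ fun i _ => (affF V ^ _).smul_mem _ ?_
  exact pow_mono (Finset.single_le_sum (f := n) (fun _ _ => Nat.zero_le _) (Finset.mem_univ i))
    (hn i)

end

/-- **Theorem.** Let `M = Γ \ X` be a closed affine manifold of positive dimension, with `X`
connected and Hausdorff. There is a `Γ`-invariant subset `C` of `E`, the graph of a polynomial map
`φ` with linear left inverse `ψ` on a vector space of dimension `k`, such that

* for all subgroups `K` of finite index, every `K`-invariant semialgebraic subset of `E` contains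
  `C` or is disjoint from `C`;
* for all subgroups `K` of finite index, if `K \ dev⁻¹(C)` has a tangent vector field without zeros
  then `K \ X` has a vector field without zeros;
* if `k = 0` then `M` has a vector field without zeros;
* every polynomial map from `E` to an irreducible representation of `Γ` which is equivariant on `C`
  is constant on `C`. -/
theorem result (X Γ E : Type) [NormedAddCommGroup E] [NormedSpace ℝ E]
    [FiniteDimensional ℝ E] [Nontrivial E] [TopologicalSpace X] [T2Space X] [ConnectedSpace X]
    [Group Γ] [MulAction Γ X] (dev : X → E) (hol : Γ →* (E ≃ᵃ[ℝ] E))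
    (D : ClosedAffine X Γ E dev hol) :
    ∃ (k : ℕ) (φ : EuclideanSpace ℝ (Fin k) → E) (ψ : E →ₗ[ℝ] EuclideanSpace ℝ (Fin k)),
      IsPolynomialMap φ ∧ (∀ y, ψ (φ y) = y) ∧ Invariant hol ⊤ (range φ) ∧
      (∀ K : Subgroup Γ, K.FiniteIndex → ∀ A : Set E, Semialgebraic A → Invariant hol K A →
        range φ ⊆ A ∨ Disjoint (range φ) A) ∧
      (∀ K : Subgroup Γ, K.FiniteIndex → HasTangentField dev hol K φ ψ → HasField X hol K) ∧
      (k = 0 → HasField X hol ⊤) ∧
      ∀ (Q : Type) [NormedAddCommGroup Q] [NormedSpace ℝ Q] [FiniteDimensional ℝ Q]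
        (σ : Representation ℝ Γ Q),
        (∀ U : Submodule ℝ Q, (∀ γ, ∀ v ∈ U, σ γ v ∈ U) → U = ⊥ ∨ U = ⊤) →
        ∀ q : E → Q, IsPolynomialMap q → (∀ γ, ∀ p ∈ range φ, q (hol γ p) = σ γ (q p)) →
        ∀ p ∈ range φ, ∀ p' ∈ range φ, q p = q p' := by
  have D' : Pool.Agent.W689.Ch.AffMfd X Γ E dev hol := ⟨D.loc, D.cont, D.equi, D.pd, D.cc⟩
  obtain ⟨k, φ, ψ, h1, h2, h3, h4, h5, h6⟩ := Pool.Agent.U352.SB.core D'
  have hd : Differentiable ℝ φ := (contDiff_one_iff_fderiv.1 (Pool.Agent.U352.SB.contDiff_pol h1)).1
  have hψ : ∀ y v, ψ (fderiv ℝ φ y v) = v := by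
    intro y v
    have e1 : HasFDerivAt (fun y => LinearMap.toContinuousLinearMap ψ (φ y))
        ((LinearMap.toContinuousLinearMap ψ).comp (fderiv ℝ φ y)) y :=
      (LinearMap.toContinuousLinearMap ψ).hasFDerivAt.comp y (hd y).hasFDerivAt
    have e2 : (fun y => LinearMap.toContinuousLinearMap ψ (φ y)) = id := funext h2
    rw [e2] at e1
    have e3 := e1.unique (hasFDerivAt_id y)
    exact congrArg (fun T => T v) e3
  have key : ∀ K : Subgroup Γ, K.FiniteIndex → HasTangentField dev hol K φ ψ →
      HasField X hol K := by
    rintro K hK ⟨Y, hY1, hY2, hY3⟩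
    refine h5 K hK Y hY1 (fun x hx => ⟨(hY2 x hx).1, ?_⟩) hY3
    obtain ⟨v, hv⟩ := (hY2 x hx).2
    rw [← hv, hψ]
  refine ⟨k, φ, ψ, ?_, h2, fun γ _ p hp => h3 γ p hp, ?_, key, ?_, ?_⟩
  · obtain ⟨n, hn⟩ := h1
    exact fun l => IsPolynomial.of_mem (hn l)
  · rintro K hK A ⟨m, f, hf, hfs⟩ hKA
    exact h4 K hK A ⟨m, f, fun i => (hf i).mem, fun x y h => (hfs x y h).1⟩ hKA
  · intro hk
    have hmiss := Pool.Agent.U352.SB.core_point D' hk h3
    refine key ⊤ inferInstance ⟨fun _ => 0, continuousOn_const, fun x hx => absurd hx (hmiss x),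
      fun γ _ x hx => absurd hx (hmiss x)⟩
  · intro Q _ _ _ σ hirr q hq hqe p hp p' hp'
    exact h6 Q σ hirr q hq.isPol hqe p hp p' hp'

end Pool.Agent.Results.MP_1fa9a4_gt.AlgebraicCore
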