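import Pool.Agent.U352.SA.Main

/-!
# Chern's conjecture for quotients of semialgebraic domains

Chern's conjecture says that closed affine manifolds have Euler characteristic zero. Let
`M = Γ \ Ω` be a closed affine manifold which is the quotient of a domain `Ω ≠ E` of the affine
space `E` (the developing map is injective). Suppose that `Ω` is semialgebraic: it is given by
polynomial equations and inequalities. For instance `Ω` can be a union of connected components of
the complement of an algebraic set, an open orbit of an algebraic group, a cone, a tube domain, and
so on; it can have topology and need not be convex. There is no condition on `Γ` or on the linear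
holonomy. Then `M` has a vector field without zeros, hence the Euler characteristic of `M` is zero.
(For `Ω = E` this is the theorem of Kostant and Sullivan.)

Idea: there is a closed `Γ`-invariant subset `C` of `E` with the following properties.

1. `C` is contractible; in fact it is the graph of a polynomial map, in suitable coordinates.
2. There is an equivariant map `r` from `X` to `C` with `r(x) = dev(x)` if `dev(x)` is in `C`.
3. Every `Γ`-invariant semialgebraic subset of `E` contains `C` or is disjoint from it.

In the language of algebraic groups, `C` is the orbit of a fixed point of a Levi subgroup of the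
Zariski closure of the holonomy under its unipotent radical. We construct `C` by induction, with a
substitute for Chevalley's theorem on semisimple representations: every irreducible representation
of `Γ` has a scalar product that is critical for the sum of the distances to its translates by the
generators, and such scalar products are inherited by tensor products, which yields invariant
complements.

If `C` is disjoint from `Ω`, then `r(x) - dev(x)` is a vector field without zeros. Otherwise `C` is
contained in `Ω`, and `r` is a proper retraction of `Ω` to `C`. It extends to a retraction of the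
sphere `E ∪ {∞}` to the sphere `C ∪ {∞}`, which maps the complement of `Ω` to infinity; this
contradicts Brouwer's theorem unless `Ω = E`.
-/

set_option autoImplicit false

open Set Filter Topology

namespace Pool.Agent.Results.MP_1fa9a4_gt.SemialgebraicDomains

/-- A closed affine manifold `Γ \ X` modelled on the vector space `E`: the group `Γ` acts on the
space `X` properly discontinuously and with compact quotient, and the developing map `dev` is a
local homeomorphism to `E` that is equivariant with respect to the affine holonomy `hol`. The
action need not be free (so orbifolds are allowed). -/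
structure ClosedAffine (X Γ E : Type) [TopologicalSpace X] [Group Γ] [MulAction Γ X]
    [NormedAddCommGroup E] [NormedSpace ℝ E] (dev : X → E) (hol : Γ →* (E ≃ᵃ[ℝ] E)) : Prop where
  /-- the developing map is a local homeomorphism -/
  loc : IsLocalHomeomorph dev
  /-- the group acts by homeomorphisms -/
  cont : ∀ γ : Γ, Continuous fun x : X => γ • x
  /-- the developing map is equivariant -/
  equi : ∀ (γ : Γ) (x : X), dev (γ • x) = hol γ (dev x)
  /-- the action is properly discontinuous -/
  pd : ∀ K : Set X, IsCompact K → {γ : Γ | ∃ x ∈ K, γ • x ∈ K}.Finite
  /-- the quotient is compact -/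
  cc : ∃ K : Set X, IsCompact K ∧ ∀ x : X, ∃ γ : Γ, ∃ k ∈ K, γ • k = x

/-- The quotient `Γ \ X` has a continuous vector field without zeros. A vector field on `X` is
given by a map `Z` to `E` (in the charts given by the developing map), and it is a vector field on
`Γ \ X` if it is invariant under `Γ`. -/
def HasField (X : Type) {Γ E : Type} [TopologicalSpace X] [Group Γ] [MulAction Γ X]
    [NormedAddCommGroup E] [NormedSpace ℝ E] (hol : Γ →* (E ≃ᵃ[ℝ] E)) : Prop :=
  ∃ Z : X → E, Continuous Z ∧ (∀ x, Z x ≠ 0) ∧
    ∀ (γ : Γ) (x : X), Z (γ • x) = (hol γ).linear (Z x)

section
variable {E : Type} [NormedAddCommGroup E] [NormedSpace ℝ E]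

/-- the function is a polynomial in linear forms -/
def IsPolynomial (f : E → ℝ) : Prop :=
  ∃ p : MvPolynomial (E →ₗ[ℝ] ℝ) ℝ, ∀ x, f x = MvPolynomial.eval (fun l => l x) p

/-- The set is semialgebraic: whether a point belongs to it depends only on the signs of finitely
many polynomials at this point. -/
def Semialgebraic (Ω : Set E) : Prop :=
  ∃ (k : ℕ) (f : Fin k → E → ℝ), (∀ i, IsPolynomial (f i)) ∧
    ∀ x y, (∀ i, SignType.sign (f i x) = SignType.sign (f i y)) → (x ∈ Ω ↔ y ∈ Ω)

open Pool.Agent.U352.SA in
theorem IsPolynomial.mem {f : E → ℝ} (hf : IsPolynomial f) : ∃ n, f ∈ affF E ^ n := by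
  obtain ⟨p, hp⟩ := hf
  obtain rfl : f = fun x => MvPolynomial.eval (fun l : E →ₗ[ℝ] ℝ => l x) p := funext hp
  clear hp
  induction p using MvPolynomial.induction_on with
  | C c =>
    refine ⟨0, ?_⟩
    simp only [MvPolynomial.eval_C]
    exact const_mem 0 c
  | add p q hp hq =>
    obtain ⟨n, hn⟩ := hp
    obtain ⟨m, hm⟩ := hq
    refine ⟨max n m, ?_⟩
    simp only [map_add]
    exact (affF E ^ (max n m)).add_mem (pow_mono (le_max_left n m) hn)
      (pow_mono (le_max_right n m) hm)
  | mul_X p l hp =>
    obtain ⟨n, hn⟩ := hp
    refine ⟨n + 1, ?_⟩
    simp only [map_mul, MvPolynomial.eval_X]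
    rw [pow_succ]
    exact Submodule.mul_mem_mul hn (lin_mem_affF l)

end

/-- Let `M = Γ \ X` be a closed affine manifold, with `X` connected, whose developing map is
injective. If the image `Ω` of the developing map is a semialgebraic subset of `E` and not equal to
`E`, then `M` has a vector field without zeros. -/
theorem result (X Γ E : Type) [NormedAddCommGroup E] [NormedSpace ℝ E]
    [FiniteDimensional ℝ E] [TopologicalSpace X] [ConnectedSpace X] [Group Γ] [MulAction Γ X]
    (dev : X → E) (hol : Γ →* (E ≃ᵃ[ℝ] E)) (D : ClosedAffine X Γ E dev hol)
    (hinj : Function.Injective dev) (hsa : Semialgebraic (range dev))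
    (hne : range dev ≠ univ) : HasField X hol := by
  obtain ⟨k, f, hf, hfs⟩ := hsa
  exact Pool.Agent.U352.SA.main ⟨D.loc, D.cont, D.equi, D.pd, D.cc⟩ hinj
    ⟨k, f, fun i => (hf i).mem, fun x y h => (hfs x y h).1⟩ hne

end Pool.Agent.Results.MP_1fa9a4_gt.SemialgebraicDomains
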