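import Pool.Agent.U352.UH.Chern

/-!
# Chern's conjecture for quotients of domains with a solvable normal subgroup

Chern's conjecture says that closed affine manifolds have Euler characteristic zero. Let
`M = Γ \ Ω` be a closed affine manifold which is the quotient of a domain `Ω` of the affine space
`E` (the developing map is injective; `Ω` may have topology and need not be convex, and there is no
condition on the linear holonomy). Suppose that `Γ`, or a subgroup of finite index, has a
non-trivial normal subgroup which is virtually solvable, or an abelian subgroup which is normalised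
up to powers (for example a commensurated one) and has an element of infinite order. Then some
finite covering of `M` has a vector field without zeros, hence the Euler characteristic of `M` is
zero. By the Tits alternative the first condition holds if `Γ` has a non-trivial amenable normal
subgroup.

Idea: after restricting to an invariant affine subspace one can assume that the abelian subgroup
`A` is unipotent. Let `𝔞` be the span of the logarithms of its elements. By a packing argument in
the torus `𝔞 / log A`, the domain is invariant under the unipotent group `exp 𝔞`, which acts on it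
freely and properly. So `exp 𝔞` and `Γ` generate a group `𝒢` which acts properly on the domain,
with compact quotient of smaller dimension than the domain. By a trace and congruence subgroup
argument the isotropy groups are trivial after passing to a subgroup of finite index. Vector fields
which are invariant under `𝒢` are sections of a vector bundle over the quotient whose rank is
greater than the dimension of the quotient; generic sections have no zeros. They are constructed
by averaging over `exp 𝔞` and over the cosets of `A`, and by choosing the coefficients outside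
sets of small Hausdorff dimension.
-/

set_option autoImplicit false

open Set Filter Topology

namespace Pool.Agent.Results.MP_1fa9a4_gt.SolvableNormalSubgroups

/-- A closed affine manifold `Γ \ X` modelled on the vector space `E`: the group `Γ` acts on the
space `X` freely, properly discontinuously and with compact quotient, and the developing map `dev`
is a local homeomorphism to `E` that is equivariant with respect to the affine holonomy `hol`. -/
structure ClosedAffine (X Γ E : Type) [TopologicalSpace X] [Group Γ] [MulAction Γ X]
    [NormedAddCommGroup E] [NormedSpace ℝ E] (dev : X → E) (hol : Γ →* (E ≃ᵃ[ℝ] E)) : Prop where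
  /-- the developing map is a local homeomorphism -/
  loc : IsLocalHomeomorph dev
  /-- the group acts by homeomorphisms -/
  cont : ∀ γ : Γ, Continuous fun x : X => γ • x
  /-- the developing map is equivariant -/
  equi : ∀ (γ : Γ) (x : X), dev (γ • x) = hol γ (dev x)
  /-- the action is free -/
  free : ∀ (γ : Γ) (x : X), γ • x = x → γ = 1
  /-- the action is properly discontinuous -/
  pd : ∀ K : Set X, IsCompact K → {γ : Γ | ∃ x ∈ K, γ • x ∈ K}.Finite
  /-- the quotient is compact -/
  cc : ∃ K : Set X, IsCompact K ∧ ∀ x : X, ∃ γ : Γ, ∃ k ∈ K, γ • k = x

/-- The covering `K \ X` of `Γ \ X` has a continuous vector field without zeros. A vector field on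
`X` is given by a map `Z` to `E` (in the charts given by the developing map), and it is a vector
field on `K \ X` if it is invariant under `K`. -/
def HasField (X : Type) {Γ E : Type} [TopologicalSpace X] [Group Γ] [MulAction Γ X]
    [NormedAddCommGroup E] [NormedSpace ℝ E] (hol : Γ →* (E ≃ᵃ[ℝ] E)) (K : Subgroup Γ) : Prop :=
  ∃ Z : X → E, Continuous Z ∧ (∀ x, Z x ≠ 0) ∧
    ∀ γ ∈ K, ∀ x : X, Z (γ • x) = (hol γ).linear (Z x)

section
variable {Γ : Type} [Group Γ]

/-- the group `R` has a solvable subgroup of finite index -/
def VirtuallySolvable (R : Subgroup Γ) : Prop :=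
  ∃ S ≤ R, S.relIndex R ≠ 0 ∧ Group.IsSolvable S

/-- the group `H` has a non-trivial normal subgroup which is virtually solvable -/
def HasSolvableNormal (H : Subgroup Γ) : Prop :=
  ∃ R ≤ H, (∀ γ ∈ H, ∀ r ∈ R, γ * r * γ⁻¹ ∈ R) ∧ R ≠ ⊥ ∧ VirtuallySolvable R

/-- There is an abelian subgroup `A` which has an element of infinite order and is normalised by
`H` up to powers: for `γ` in `H` and `a` in `A` the element `γ * a ^ k * γ⁻¹` is in `A` for some
`k ≠ 0`. This is the case if `A` is commensurated by `H`. -/
def HasAlmostNormalAbelian (H : Subgroup Γ) : Prop :=
  ∃ A : Subgroup Γ, (∀ a ∈ A, ∀ b ∈ A, a * b = b * a) ∧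
    (∀ γ ∈ H, ∀ a ∈ A, ∃ k : ℕ, k ≠ 0 ∧ γ * a ^ k * γ⁻¹ ∈ A) ∧
    ∃ a ∈ A, ∀ n : ℕ, n ≠ 0 → a ^ n ≠ 1

end

/-- Let `M = Γ \ X` be a closed affine manifold, with `X` connected, whose developing map is
injective. If some subgroup `H` of finite index has a non-trivial virtually solvable normal
subgroup, or normalises up to powers an abelian subgroup which has an element of infinite order,
then some finite covering of `M` has a vector field without zeros. -/
theorem result (X Γ E : Type) [NormedAddCommGroup E] [NormedSpace ℝ E]
    [FiniteDimensional ℝ E] [TopologicalSpace X] [ConnectedSpace X] [Group Γ] [MulAction Γ X]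
    (dev : X → E) (hol : Γ →* (E ≃ᵃ[ℝ] E)) (D : ClosedAffine X Γ E dev hol)
    (hinj : Function.Injective dev) (H : Subgroup Γ) (hH : H.FiniteIndex)
    (h : HasSolvableNormal H ∨ HasAlmostNormalAbelian H) :
    ∃ K : Subgroup Γ, K.FiniteIndex ∧ HasField X hol K := by
  have hT2 : T2Space X := (D.loc.isOpenEmbedding_of_injective hinj).isEmbedding.t2Space
  have D' : Pool.Agent.W689.Ch.AffMfd X Γ E dev hol := ⟨D.loc, D.cont, D.equi, D.pd, D.cc⟩
  have key : ∃ K : Subgroup Γ, K.FiniteIndex ∧
      Pool.Agent.TH845.Mk.Fld dev (hol.comp K.subtype) ⊤ := by
    rcases h with ⟨R, hRH, hnor, hne, S, hSR, hidx, hS⟩ | ⟨A, hcom, han, a, ha, hinf⟩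
    · let R' : Subgroup H := R.subgroupOf H
      have hR' : R'.Normal := ⟨fun r hr γ => hnor γ γ.2 r hr⟩
      have hne' : R' ≠ ⊥ := by
        intro hb
        apply hne
        rw [eq_bot_iff]
        intro r hr
        have h1 : (⟨r, hRH hr⟩ : H) ∈ R' := hr
        rw [hb, Subgroup.mem_bot] at h1
        exact congrArg Subtype.val h1
      let S' : Subgroup R' := (S.subgroupOf H).subgroupOf R'
      have hS' : Group.IsSolvable S' := by
        let f : S' →* S :=
          { toFun := fun s => ⟨s.1.1.1, s.2⟩
            map_one' := rfl
            map_mul' := fun _ _ => rfl }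
        have := hS
        refine Group.isSolvable_of_isSolvable_injective (f := f) ?_
        intro s t hst
        have h1 : s.1.1.1 = t.1.1.1 := congrArg (Subtype.val : S → Γ) hst
        exact Subtype.ext (Subtype.ext (Subtype.ext h1))
      have hidx' : S'.FiniteIndex := by
        refine ⟨?_⟩
        have h1 : S'.index = S.relIndex R := Subgroup.relIndex_subgroupOf hRH
        rw [h1]
        exact hidx
      exact Pool.Agent.U352.UH.chern_vs D' hinj D.free hH R' hR' hne' S' hS' hidx'
    · exact Pool.Agent.U352.UH.chern_comm D' hinj D.free hH han hcom ha hinf
  obtain ⟨K, hK, Z, h1, h2, h3⟩ := key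
  refine ⟨K, hK, Z, ?_, fun x => (h2 x trivial).2, fun γ hγ x => h3 ⟨γ, hγ⟩ x trivial⟩
  rw [← continuousOn_univ]
  exact h1.mono fun x _ => trivial

end Pool.Agent.Results.MP_1fa9a4_gt.SolvableNormalSubgroups
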