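import Mathlib

/-!
# Chern's conjecture for affine manifolds: sublinear growth of the Euler characteristic suffices

Let `size` be a real function of closed affine manifolds which grows at most linearly in finite
coverings: `size N ≤ d size M` for `d`-sheeted coverings `N → M` (the least number of simplices of a
triangulation, the least number of convex affine charts, the simplicial volume, or `0`). The linear
holonomy group of a closed affine manifold `M` of positive dimension is finitely generated and
linear, and the holonomy group is infinite (a finite covering with trivial holonomy would be a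
compact manifold with a local homeomorphism to `ℝⁿ`), so by Malcev `M` has finite coverings of
arbitrarily large degree. Hence one closed affine manifold with `χ ≠ 0` gives closed affine
manifolds of the same dimension, and of each multiple of it, with `|χ| ≥ c size + C` for a fixed
`c > 0` and all `C`.
-/

set_option autoImplicit false

namespace Pool.Agent.Results.MP_1fa9a4_gt.SublinearEulerSuffices

/-- Closed affine manifolds with dimension, Euler characteristic and a real function `size`;
`Covers N M d`: `N` is a `d`-sheeted covering of `M` with the induced affine structure. -/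
structure AffineManifolds where
  Man : Type
  dim : Man → ℕ
  chi : Man → ℤ
  size : Man → ℝ
  Covers : Man → Man → ℕ → Prop

/-- The facts used: dimension and Euler characteristic of products (which are affine manifolds);
the Euler characteristic is multiplicative and `size` at most linear in coverings; a closed affine
manifold of positive dimension has finite coverings of arbitrarily large degree (its holonomy group
is an infinite finitely generated linear group; Malcev). -/
structure Facts (A : AffineManifolds) : Prop where
  product : ∀ M N, ∃ P, A.dim P = A.dim M + A.dim N ∧ A.chi P = A.chi M * A.chi N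
  dim_covers : ∀ N M d, A.Covers N M d → A.dim N = A.dim M
  chi_covers : ∀ N M d, A.Covers N M d → A.chi N = d * A.chi M
  size_covers : ∀ N M d, A.Covers N M d → A.size N ≤ d * A.size M
  coverings : ∀ M, 0 < A.dim M → ∀ k : ℕ, ∃ N d, k ≤ d ∧ A.Covers N M d

/-- Powers. -/
theorem powers {A : AffineManifolds} (h : Facts A) (M : A.Man) (k : ℕ) :
    ∃ P, A.dim P = (k + 1) * A.dim M ∧ A.chi P = A.chi M ^ (k + 1) := by
  induction k with
  | zero => exact ⟨M, by simp, by simp⟩
  | succ k ih =>
    obtain ⟨P, h1, h2⟩ := ih
    obtain ⟨Q, h3, h4⟩ := h.product P M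
    refine ⟨Q, ?_, ?_⟩
    · rw [h3, h1]; ring
    · rw [h4, h2]; ring

/-- Let `D` be a set of positive numbers such that every positive number divides a member of `D`.
All closed affine manifolds of positive dimension have Euler characteristic zero if and only if in
each dimension `n ∈ D` the Euler characteristic grows more slowly than `size`: for every `ε > 0`
there is `C` with `|χ(M)| ≤ ε size(M) + C` for all closed affine `n`-manifolds `M`. -/
theorem result (A : AffineManifolds) (h : Facts A) (hs : ∀ M, 0 ≤ A.size M) (D : Set ℕ)
    (hD0 : ∀ n ∈ D, 0 < n) (hD : ∀ m : ℕ, 0 < m → ∃ n ∈ D, m ∣ n) :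
    (∀ M, 0 < A.dim M → A.chi M = 0) ↔
    (∀ n ∈ D, ∀ ε : ℝ, 0 < ε → ∃ C : ℝ, ∀ M, A.dim M = n →
      |(A.chi M : ℝ)| ≤ ε * A.size M + C) := by
  constructor
  · intro hc n hn ε hε
    refine ⟨0, fun M hM => ?_⟩
    rw [hc M (by rw [hM]; exact hD0 n hn)]
    have := hs M
    simp only [Int.cast_zero, abs_zero, add_zero]
    positivity
  · intro hb M hM
    by_contra hne
    obtain ⟨n, hn, k, hk⟩ := hD (A.dim M) hM
    have hn0 := hD0 n hn
    have hk0 : 0 < k := Nat.pos_of_ne_zero fun h0 => by
      rw [h0, mul_zero] at hk; omega
    obtain ⟨P, hP1, hP2⟩ := powers h M (k - 1)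
    rw [Nat.sub_add_cancel hk0] at hP1 hP2
    have hPd : A.dim P = n := by rw [hP1, hk]; ring
    have hPc : A.chi P ≠ 0 := by rw [hP2]; exact pow_ne_zero _ hne
    have h1 : (1 : ℝ) ≤ |(A.chi P : ℝ)| := by
      have h2 : (1 : ℤ) ≤ |A.chi P| := Int.one_le_abs hPc
      exact_mod_cast h2
    have hsP := hs P
    have hε : (0 : ℝ) < 1 / (2 * (A.size P + 1)) := by positivity
    obtain ⟨C, hC⟩ := hb n hn _ hε
    obtain ⟨k', hk'⟩ := exists_nat_gt (2 * C)
    obtain ⟨N, d, hd, hN⟩ := h.coverings P (by rw [hPd]; exact hn0) (max k' 1)
    have hd1 : k' ≤ d := (le_max_left _ _).trans hd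
    have h3 := hC N (by rw [h.dim_covers N P d hN, hPd])
    rw [h.chi_covers N P d hN] at h3
    push_cast at h3
    rw [abs_mul, Nat.abs_cast] at h3
    have h4 := h.size_covers N P d hN
    have hd0 : (0 : ℝ) ≤ d := Nat.cast_nonneg d
    have h5 : (d : ℝ) ≤ d * |(A.chi P : ℝ)| := le_mul_of_one_le_right hd0 h1
    have h6 : 1 / (2 * (A.size P + 1)) * A.size N ≤ d / 2 := by
      calc 1 / (2 * (A.size P + 1)) * A.size N
          ≤ 1 / (2 * (A.size P + 1)) * (d * (A.size P + 1)) := by
            refine mul_le_mul_of_nonneg_left (h4.trans ?_) hε.le
            exact mul_le_mul_of_nonneg_left (by linarith) hd0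
        _ = d / 2 := by
            have : A.size P + 1 ≠ 0 := by positivity
            field_simp
    have h7 : (k' : ℝ) ≤ d := by exact_mod_cast hd1
    linarith

end Pool.Agent.Results.MP_1fa9a4_gt.SublinearEulerSuffices
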